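import Pool.Agent.H24.SCG2.Stmts1

/-!
Project SCG2, module ELM: the group generated by three elements of the group of `Q0` over the
prime field and by a polarity.
-/

namespace Pool.Agent.H60.SCG2

open Matrix Pool.SCG

section

variable {p : ℕ} [Fact p.Prime] {F : Type} [Field F] [CharP F p]

/-- the map to `Cor F` -/
noncomputable def ph (Φ : GL (Fin 2) F →* SL3 F) (g : GL (Fin 2) (ZMod p)) : Cor F :=
  inn (Φ (Matrix.GeneralLinearGroup.map (ZMod.castHom (dvd_refl p) F) g))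

theorem ph_mul (Φ : GL (Fin 2) F →* SL3 F) (g h : GL (Fin 2) (ZMod p)) :
    ph Φ (g * h) = ph Φ g * ph Φ h := by
  unfold ph
  rw [map_mul, map_mul, inn_mul]

theorem ph_one (Φ : GL (Fin 2) F →* SL3 F) : ph Φ (1 : GL (Fin 2) (ZMod p)) = 1 := by
  unfold ph
  rw [map_one, map_one]
  rfl

theorem ph_inv (Φ : GL (Fin 2) F →* SL3 F) (g : GL (Fin 2) (ZMod p)) :
    ph Φ g⁻¹ = (ph Φ g)⁻¹ := by
  rw [eq_inv_iff_mul_eq_one, ← ph_mul, inv_mul_cancel, ph_one]

/-- the subgroup of the elements which are in `K` up to `e` -/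
noncomputable def XX (Φ : GL (Fin 2) F →* SL3 F) (K : Subgroup (Cor F)) (e : Cor F)
    (he : e * e = 1) (hc : ∀ g : GL (Fin 2) (ZMod p), e * ph Φ g = ph Φ g * e) :
    Subgroup (GL (Fin 2) (ZMod p)) where
  carrier := {g | ph Φ g ∈ K ∨ ph Φ g * e ∈ K}
  mul_mem' := by
    intro g h hg hh
    simp only [Set.mem_ofPred_eq] at hg hh ⊢
    rw [ph_mul]
    rcases hg with hg | hg <;> rcases hh with hh | hh
    · exact Or.inl (K.mul_mem hg hh)
    · right
      rw [mul_assoc]
      exact K.mul_mem hg hh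
    · right
      rw [mul_assoc, ← hc h, ← mul_assoc]
      exact K.mul_mem hg hh
    · left
      have := K.mul_mem hg hh
      have h1 : ph Φ g * e * (ph Φ h * e) = ph Φ g * ph Φ h := by
        calc ph Φ g * e * (ph Φ h * e) = ph Φ g * (e * ph Φ h) * e := by simp only [mul_assoc]
          _ = ph Φ g * ph Φ h * (e * e) := by rw [hc h]; simp only [mul_assoc]
          _ = ph Φ g * ph Φ h := by rw [he, mul_one]
      rwa [h1] at this
  one_mem' := by
    left
    rw [ph_one]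
    exact K.one_mem
  inv_mem' := by
    intro g hg
    simp only [Set.mem_ofPred_eq] at hg ⊢
    rw [ph_inv]
    rcases hg with hg | hg
    · exact Or.inl (K.inv_mem hg)
    · right
      have := K.inv_mem hg
      have h1 : (ph Φ g * e)⁻¹ = (ph Φ g)⁻¹ * e := by
        rw [← hc g, _root_.mul_inv_rev, eq_comm, mul_right_inj]
        exact eq_inv_of_mul_eq_one_left he
      rwa [h1] at this

theorem mem_XX {Φ : GL (Fin 2) F →* SL3 F} {K : Subgroup (Cor F)} {e : Cor F}
    {he : e * e = 1} {hc : ∀ g : GL (Fin 2) (ZMod p), e * ph Φ g = ph Φ g * e}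
    {g : GL (Fin 2) (ZMod p)} : g ∈ XX Φ K e he hc ↔ ph Φ g ∈ K ∨ ph Φ g * e ∈ K := Iff.rfl

/-- squares are in `K` -/
theorem sq_mem {Φ : GL (Fin 2) F →* SL3 F} {K : Subgroup (Cor F)} {e : Cor F}
    {he : e * e = 1} {hc : ∀ g : GL (Fin 2) (ZMod p), e * ph Φ g = ph Φ g * e}
    {g : GL (Fin 2) (ZMod p)} (hg : g ∈ XX Φ K e he hc) : ph Φ (g * g) ∈ K := by
  rw [ph_mul]
  rcases hg with hg | hg
  · exact K.mul_mem hg hg
  · have := K.mul_mem hg hg
    have h1 : ph Φ g * e * (ph Φ g * e) = ph Φ g * ph Φ g := by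
      calc ph Φ g * e * (ph Φ g * e) = ph Φ g * (e * ph Φ g) * e := by simp only [mul_assoc]
        _ = ph Φ g * ph Φ g * (e * e) := by rw [hc g]; simp only [mul_assoc]
        _ = ph Φ g * ph Φ g := by rw [he, mul_one]
    rwa [h1] at this

end

theorem elm_thm (hDPAR : DPARStmt) (hSL : SL2PStmt) (hW : W1Stmt) (hPHI : PHIStmt) :
    ELMStmt := by
  intro p _ F _ _ _ hp ga gb gc da db dc hdet htr hadj hsc a b c d e ha hb hc hd he hde
  have hp2 : p ≠ 2 := by rintro rfl; norm_num at hp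
  have h2p : (2 : ZMod p) ≠ 0 := by
    intro h
    have h1 : ((2 : ℕ) : ZMod p) = 0 := by exact_mod_cast h
    rw [ZMod.natCast_eq_zero_iff] at h1
    have := (Nat.prime_dvd_prime_iff_eq (Fact.out) Nat.prime_two).1 h1
    exact hp2 this
  have h2 : (2 : F) ≠ 0 := by
    intro h
    have h1 : ((2 : ℕ) : F) = 0 := by exact_mod_cast h
    rw [CharP.cast_eq_zero_iff F p] at h1
    have := (Nat.prime_dvd_prime_iff_eq (Fact.out) Nat.prime_two).1 h1
    exact hp2 this
  obtain ⟨Φ, hΦ1, hΦ2⟩ := hPHI F h2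
  set f : ZMod p →+* F := ZMod.castHom (dvd_refl p) F with hf
  have hee : e * e = 1 := by
    rw [outer_sq_iff he]
    ext i j
    fin_cases i <;> fin_cases j <;> simp [Q0]
  have hcm : ∀ g : GL (Fin 2) (ZMod p), e * ph Φ g = ph Φ g * e := fun g => hΦ2 _ e he
  -- the matrix of `ph Φ g`
  have hph : ∀ (g : GL (Fin 2) (ZMod p)) (A : M2 (ZMod p)), (g : M2 (ZMod p)) = A →
      Is (ph Φ g) false (PhM (A.map f)) := by
    intro g A hA
    refine ⟨rfl, ?_⟩
    have h1 := hΦ1 (Matrix.GeneralLinearGroup.map f g) (f (A 0 0)) (f (A 0 1)) (f (A 1 0))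
      (f (A 1 1)) (by
        ext i j
        fin_cases i <;> fin_cases j <;>
          simp [Matrix.GeneralLinearGroup.map, hA])
    show ((Φ (Matrix.GeneralLinearGroup.map f g) : SL3 F) : M3 F) = _
    rw [h1]
    simp only [PhM, Matrix.map_apply]
  -- the generators
  have hgen : ∀ (A : M2 (ZMod p)) (x : Cor F), A.det ≠ 0 →
      (Is x false (PhM (A.map f)) ∨ Is x true (Q0 F * PhM (A.map f))) →
      ∃ g : GL (Fin 2) (ZMod p), (g : M2 (ZMod p)) = A ∧ (x = ph Φ g ∨ x = ph Φ g * e) := by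
    intro A x hA hx
    obtain ⟨g, hg⟩ : ∃ g : GL (Fin 2) (ZMod p), (g : M2 (ZMod p)) = A :=
      ⟨Matrix.GeneralLinearGroup.mkOfDetNeZero A hA, rfl⟩
    refine ⟨g, hg, ?_⟩
    rcases hx with hx | hx
    · exact Or.inl (hx.ext (hph g A hg))
    · right
      rw [← hcm g]
      exact hx.ext (he.mul_inner (hph g A hg))
  set H : Subgroup (Cor F) := Subgroup.closure ({a, b, c, d} ∪ Zs F : Set (Cor F)) with hH
  have haH : a ∈ H := Subgroup.subset_closure (Or.inl (by simp))
  have hbH : b ∈ H := Subgroup.subset_closure (Or.inl (by simp))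
  have hcH : c ∈ H := Subgroup.subset_closure (Or.inl (by simp))
  have hdH : d ∈ H := Subgroup.subset_closure (Or.inl (by simp))
  have hZH : ∀ z ∈ Zs F, z ∈ H := fun z hz => Subgroup.subset_closure (Or.inr hz)
  obtain ⟨g1, hg1, hx1⟩ := hgen ga a da ha
  obtain ⟨g2, hg2, hx2⟩ := hgen gb b db hb
  obtain ⟨g3, hg3, hx3⟩ := hgen gc c dc hc
  have m1 : g1 ∈ XX Φ H e hee hcm := by
    rw [mem_XX]
    rcases hx1 with h | h
    · left; rwa [← h]
    · right; rwa [← h]
  have m2 : g2 ∈ XX Φ H e hee hcm := by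
    rw [mem_XX]
    rcases hx2 with h | h
    · left; rwa [← h]
    · right; rwa [← h]
  have m3 : g3 ∈ XX Φ H e hee hcm := by
    rw [mem_XX]
    rcases hx3 with h | h
    · left; rwa [← h]
    · right; rwa [← h]
  have m23 := Subgroup.mul_mem _ m2 m3
  have e23 : ((g2 * g3 : GL (Fin 2) (ZMod p)) : M2 (ZMod p)) = gb * gc := by
    rw [Units.val_mul, hg2, hg3]
  obtain ⟨u, hu, hu1, hu2⟩ := hDPAR (ZMod p) h2p (XX Φ H e hee hcm) (g2 * g3) g1 m23 m1
    (by rw [e23, hg1]; exact hdet) (by rw [e23]; exact htr) (by rw [e23, hg1]; exact hadj)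
    (by
      intro k c' hk1 hk2
      rw [Units.val_pow_eq_pow_val, e23]
      exact hsc k c' hk1 hk2)
  have hall := hSL p hp2 (XX Φ H e hee hcm) u (g2 * g3) g1 hu m23 m1 hu1 hu2
    (by rw [e23, hg1]; exact hdet)
  -- squares of elements of `SL(2,p)`
  have hsq : ∀ A : M2 (ZMod p), A.det = 1 → ∃ x ∈ H, Is x false (PhM ((A * A).map f)) ∧
      e * x = x * e := by
    intro A hA
    obtain ⟨k, hk, c', hc', hkA⟩ := hall A hA
    refine ⟨ph Φ (k * k), sq_mem hk, ?_, hcm _⟩
    have h3 := hph (k * k) ((c' ^ 2) • (A * A)) (by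
      rw [Units.val_mul, hkA, Matrix.smul_mul, Matrix.mul_smul, smul_smul, sq])
    have hfc : f c' ≠ 0 := by
      intro h
      apply hc'
      exact (RingHom.injective f) (by rw [h, map_zero])
    have h4 : PhM (((c' ^ 2) • (A * A)).map f) = PhM ((A * A).map f) := by
      have hd : (A * A).det = 1 := by rw [Matrix.det_mul, hA, one_mul]
      have hd' : ((A * A).map f) 0 0 * ((A * A).map f) 1 1 -
          ((A * A).map f) 0 1 * ((A * A).map f) 1 0 = 1 := by
        rw [Matrix.det_fin_two] at hd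
        simp only [Matrix.map_apply]
        rw [← map_mul, ← map_mul, ← map_sub, hd, map_one]
      have hs : ((c' ^ 2) • (A * A)).map f = (f c' ^ 2) • ((A * A).map f) := by
        ext i j
        simp only [Matrix.map_apply, Matrix.smul_apply, smul_eq_mul, map_mul, map_pow]
      rw [hs]
      generalize (A * A).map f = B at hd' ⊢
      unfold PhM
      rw [hd']
      have h5 : ((f c' ^ 2) • B) 0 0 * ((f c' ^ 2) • B) 1 1 -
          ((f c' ^ 2) • B) 0 1 * ((f c' ^ 2) • B) 1 0 = f c' ^ 4 := by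
        simp only [Matrix.smul_apply, smul_eq_mul]
        linear_combination (f c' ^ 4) * hd'
      rw [h5]
      ext i j
      fin_cases i <;> fin_cases j <;>
        simp [Matrix.smul_apply] <;> field_simp
    rw [h4] at h3
    exact h3
  have hU : ∀ n : ℤ, ∃ x ∈ H, Is x false (Uc (n : F)) ∧ e * x = x * e := by
    intro n
    obtain ⟨x, hx, hx', hx''⟩ := hsq !![1, (n : ZMod p) * 2⁻¹; 0, 1] (by simp)
    refine ⟨x, hx, ?_, hx''⟩
    convert hx' using 1
    have h6 : (!![1, (n : ZMod p) * 2⁻¹; 0, 1] * !![1, (n : ZMod p) * 2⁻¹; 0, 1] :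
        M2 (ZMod p)) = !![1, (n : ZMod p); 0, 1] := by
      ext i j
      fin_cases i <;> fin_cases j <;> simp [Matrix.mul_apply, Fin.sum_univ_two]
      field_simp
      ring
    rw [h6]
    ext i j
    fin_cases i <;> fin_cases j <;> simp [PhM, Uc, Matrix.map_apply]
  have hL : ∀ n : ℤ, ∃ x ∈ H, Is x false (Lc (n : F)) ∧ e * x = x * e := by
    intro n
    obtain ⟨x, hx, hx', hx''⟩ := hsq !![1, 0; (n : ZMod p) * 2⁻¹, 1] (by simp)
    refine ⟨x, hx, ?_, hx''⟩
    convert hx' using 1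
    have h6 : (!![1, 0; (n : ZMod p) * 2⁻¹, 1] * !![1, 0; (n : ZMod p) * 2⁻¹, 1] :
        M2 (ZMod p)) = !![1, 0; (n : ZMod p), 1] := by
      ext i j
      fin_cases i <;> fin_cases j <;> simp [Matrix.mul_apply, Fin.sum_univ_two]
      field_simp
      ring
    rw [h6]
    ext i j
    fin_cases i <;> fin_cases j <;> simp [PhM, Lc, Matrix.map_apply]
  obtain ⟨z, hz, hde⟩ := hde
  -- conjugation with `d`
  have hCC : Cm F * (Cm F).transpose = 1 := by
    ext i j
    fin_cases i <;> fin_cases j <;> simp [Cm, Matrix.mul_apply, Fin.sum_univ_three]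
  have hz0 : z ≠ 0 := by rintro rfl; simp at hz
  have hconj : ∀ (x : Cor F) (A : M3 F), x ∈ H → Is x false A → e * x = x * e →
      InM H (Cm F * A * (Cm F).transpose) := by
    intro x A hx hA hex
    refine ⟨d * x * d⁻¹, H.mul_mem (H.mul_mem hdH hx) (H.inv_mem hdH), ?_⟩
    have h7 : d * x * d⁻¹ = (d * e) * x * (d * e)⁻¹ := by
      rw [_root_.mul_inv_rev]
      calc d * x * d⁻¹ = d * x * (e * e⁻¹) * d⁻¹ := by rw [mul_inv_cancel, mul_one]
        _ = d * (x * e) * (e⁻¹ * d⁻¹) := by simp only [mul_assoc]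
        _ = d * e * x * (e⁻¹ * d⁻¹) := by rw [← hex]; simp only [mul_assoc]
    rw [h7]
    have h8 := (hde.mul_inner hA).mul_inner hde.inv_inner
    have h9 : adjugate (z • Cm F) = z⁻¹ • (Cm F).transpose := by
      apply adj_unique hde.det
      rw [Matrix.smul_mul, Matrix.mul_smul, smul_smul, mul_inv_cancel₀ hz0, one_smul, hCC]
    rw [h9] at h8
    convert h8 using 1
    rw [Matrix.smul_mul, Matrix.mul_smul, Matrix.smul_mul, smul_smul, inv_mul_cancel₀ hz0,
      one_smul]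
  obtain ⟨y, hy, hyC⟩ := hW F h2 H
    (fun n => by obtain ⟨x, hx, hx', -⟩ := hU n; exact ⟨x, hx, hx'⟩)
    (fun n => by obtain ⟨x, hx, hx', -⟩ := hL n; exact ⟨x, hx, hx'⟩)
    (fun n => by obtain ⟨x, hx, hx', hx''⟩ := hU n; exact hconj x _ hx hx' hx'')
    (fun n => by obtain ⟨x, hx, hx', hx''⟩ := hL n; exact hconj x _ hx hx' hx'')
  obtain ⟨s, hs⟩ := exists_is (F := F) false (dg z z z) (by rw [dg_det, ← hz]; ring)
  have hsH : s ∈ H := hZH s ⟨z, hz, hs⟩
  have h10 : d * e = s * y := by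
    apply hde.ext
    have := hs.mul_inner hyC
    convert this using 1
    ext i j
    fin_cases i <;> fin_cases j <;> simp [dg, Cm, Matrix.mul_apply, Fin.sum_univ_three]
  have h11 : e = d⁻¹ * (s * y) := by rw [← h10, inv_mul_cancel_left]
  rw [h11]
  exact H.mul_mem (H.inv_mem hdH) (H.mul_mem hsH hy)

end Pool.Agent.H60.SCG2
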