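import Pool.Agent.H24.SCG2.Base3

/-!
Project SCG2, module Q7S: first and second intersection condition for `q = 7`.
-/

namespace Pool.Agent.H60.SCG2

open Matrix Pool.SCG

private theorem n3 {F : Type} [Field F] (h7 : (7 : F) = 0) : (3 : F) ≠ 0 := fun h =>
  one_ne_zero (α := F) (by linear_combination h7 - 2 * h)

private theorem n2 {F : Type} [Field F] (h7 : (7 : F) = 0) : (2 : F) ≠ 0 := fun h =>
  one_ne_zero (α := F) (by linear_combination h7 - 3 * h)

private theorem n4 {F : Type} [Field F] (h7 : (7 : F) = 0) : (4 : F) ≠ 0 := fun h =>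
  n3 h7 (by linear_combination h7 - h)

private theorem pow6 {G : Type} [Group G] (x : G) (h : x ^ 6 = 1) (k : ℕ) : x ^ k = x ^ (k % 6) := by
  conv_lhs => rw [← Nat.div_add_mod k 6, pow_add, pow_mul, h, one_pow, one_mul]

private theorem pw {F : Type} [Field F] (h7 : (7 : F) = 0) {a b c d : MulAut (SL3 F)}
    (h : Gens7 a b c d) :
    GIs ((b * c) ^ 1) true !![1, 0, 0; 0, 0, 2; 0, 4, 0] ∧
    GIs ((b * c) ^ 2) false !![1, 0, 0; 0, 2, 0; 0, 0, 4] ∧
    GIs ((b * c) ^ 3) true !![1, 0, 0; 0, 0, 1; 0, 1, 0] ∧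
    GIs ((b * c) ^ 4) false !![1, 0, 0; 0, 4, 0; 0, 0, 2] ∧
    GIs ((b * c) ^ 5) true !![1, 0, 0; 0, 0, 4; 0, 2, 0] ∧ (b * c) ^ 6 = 1 := by
  have h1 : GIs (b * c) true !![1, 0, 0; 0, 0, 2; 0, 4, 0] := by
    have := h.hb.mul_inner h.hc
    have e : dg (-1 : F) 2 4 * blk (-1) !![0, 1; 1, 0] = !![1, 0, 0; 0, 0, 2; 0, 4, 0] := by
      ext i j
      fin_cases i <;> fin_cases j <;> simp [dg, blk, Matrix.mul_apply, Fin.sum_univ_three]
    rwa [e] at this
  have h2 : GIs ((b * c) ^ 2) false !![1, 0, 0; 0, 2, 0; 0, 0, 4] := by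
    have h0 := h1.mul_outer h1 (A' := !![1, 0, 0; 0, 0, 2; 0, 4, 0]) (by
      ext i j
      fin_cases i <;> fin_cases j <;> simp [Matrix.mul_apply, Fin.sum_univ_three] <;>
        linear_combination h7)
    rw [pow_two]
    have e : (!![1, 0, 0; 0, 0, 2; 0, 4, 0] : Matrix (Fin 3) (Fin 3) F).transpose *
        !![1, 0, 0; 0, 0, 2; 0, 4, 0] = !![1, 0, 0; 0, 2, 0; 0, 0, 4] := by
      ext i j
      fin_cases i <;> fin_cases j <;> simp [Matrix.mul_apply, Fin.sum_univ_three] <;>
        first | ring1 | linear_combination h7 | linear_combination 2 * h7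
    rw [e] at h0
    exact h0
  have h3 : GIs ((b * c) ^ 3) true !![1, 0, 0; 0, 0, 1; 0, 1, 0] := by
    have h0 := h2.mul_outer h1 (A' := !![1, 0, 0; 0, 4, 0; 0, 0, 2]) (by
      ext i j
      fin_cases i <;> fin_cases j <;> simp [Matrix.mul_apply, Fin.sum_univ_three] <;>
        linear_combination h7)
    rw [pow_succ]
    have e : (!![1, 0, 0; 0, 4, 0; 0, 0, 2] : Matrix (Fin 3) (Fin 3) F).transpose *
        !![1, 0, 0; 0, 0, 2; 0, 4, 0] = !![1, 0, 0; 0, 0, 1; 0, 1, 0] := by
      ext i j
      fin_cases i <;> fin_cases j <;> simp [Matrix.mul_apply, Fin.sum_univ_three] <;>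
        linear_combination h7
    rw [e] at h0
    exact h0
  have h4 : GIs ((b * c) ^ 4) false !![1, 0, 0; 0, 4, 0; 0, 0, 2] := by
    have h0 := h2.mul_inner h2
    rw [show (b * c) ^ 4 = (b * c) ^ 2 * (b * c) ^ 2 by rw [← pow_add]]
    have e : (!![1, 0, 0; 0, 2, 0; 0, 0, 4] : Matrix (Fin 3) (Fin 3) F) *
        !![1, 0, 0; 0, 2, 0; 0, 0, 4] = !![1, 0, 0; 0, 4, 0; 0, 0, 2] := by
      ext i j
      fin_cases i <;> fin_cases j <;> simp [Matrix.mul_apply, Fin.sum_univ_three] <;>
        first | ring1 | linear_combination h7 | linear_combination 2 * h7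
    rw [e] at h0
    exact h0
  have h5 : GIs ((b * c) ^ 5) true !![1, 0, 0; 0, 0, 4; 0, 2, 0] := by
    have h0 := h4.mul_outer h1 (A' := !![1, 0, 0; 0, 2, 0; 0, 0, 4]) (by
      ext i j
      fin_cases i <;> fin_cases j <;> simp [Matrix.mul_apply, Fin.sum_univ_three] <;>
        linear_combination h7)
    rw [pow_succ]
    have e : (!![1, 0, 0; 0, 2, 0; 0, 0, 4] : Matrix (Fin 3) (Fin 3) F).transpose *
        !![1, 0, 0; 0, 0, 2; 0, 4, 0] = !![1, 0, 0; 0, 0, 4; 0, 2, 0] := by
      ext i j
      fin_cases i <;> fin_cases j <;> simp [Matrix.mul_apply, Fin.sum_univ_three] <;>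
        first | ring1 | linear_combination h7 | linear_combination 2 * h7
    rw [e] at h0
    exact h0
  refine ⟨by rwa [pow_one], h2, h3, h4, h5, ?_⟩
  have h0 := h4.mul_inner h2
  have e : (!![1, 0, 0; 0, 4, 0; 0, 0, 2] : Matrix (Fin 3) (Fin 3) F) *
      !![1, 0, 0; 0, 2, 0; 0, 0, 4] = 1 := by
    ext i j
    fin_cases i <;> fin_cases j <;> simp [Matrix.mul_apply, Fin.sum_univ_three] <;>
      linear_combination h7
  rw [e] at h0
  rw [show (b * c) ^ 6 = (b * c) ^ 4 * (b * c) ^ 2 by rw [← pow_add]]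
  exact h0.ext gis_one 1 (by rw [one_smul])

/-- inner elements and `d` -/
private theorem ind {F : Type} [Field F] {x d : MulAut (SL3 F)} {A D : Matrix (Fin 3) (Fin 3) F}
    (hx : GIs x false A) (hd : GIs d false D) (h : x * d = d * x) :
    ∃ c : F, D * A = c • (A * D) := by
  have h1 := hx.mul_inner hd
  have h2 := hd.mul_inner hx
  rw [h] at h1
  obtain ⟨_, c, _, hc⟩ := h1.uniq h2
  exact ⟨c, hc⟩

/-- outer elements and `d` -/
private theorem oud {F : Type} [Field F] {x d : MulAut (SL3 F)}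
    {A D D' : Matrix (Fin 3) (Fin 3) F} (hx : GIs x true A) (hd : GIs d false D)
    (hD : D * D' = 1) (h : x * d = d * x) : ∃ c : F, D'.transpose * A = c • (A * D) := by
  have h1 := hx.mul_inner hd
  have h2 := hd.mul_outer hx hD
  rw [h] at h1
  obtain ⟨_, c, _, hc⟩ := h1.uniq h2
  exact ⟨c, hc⟩

/-- outer elements and outer elements -/
private theorem ouo {F : Type} [Field F] {x a : MulAut (SL3 F)}
    {A A' B B' : Matrix (Fin 3) (Fin 3) F} (hx : GIs x true A) (ha : GIs a true B)
    (hA : A * A' = 1) (hB : B * B' = 1) (h : x * a = a * x) :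
    ∃ c : F, B'.transpose * A = c • (A'.transpose * B) := by
  have h1 := hx.mul_outer ha hA
  have h2 := ha.mul_outer hx hB
  rw [h] at h1
  obtain ⟨_, c, _, hc⟩ := h1.uniq h2
  exact ⟨c, hc⟩

theorem q7s_thm : Q7SStmt := by
  intro F _ h7 a b c d h
  obtain ⟨p1, p2, p3, p4, p5, p6⟩ := pw h7 h
  have h3 := n3 h7
  have h2 := n2 h7
  have h4 := n4 h7
  have hDD : (!![-3, 4, 0; -2, 3, 0; 0, 0, -1] : Matrix (Fin 3) (Fin 3) F) *
      !![-3, 4, 0; -2, 3, 0; 0, 0, -1] = 1 := by
    ext i j
    fin_cases i <;> fin_cases j <;> simp [Matrix.mul_apply, Fin.sum_univ_three] <;> ring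
  have hAA : dg (-1 : F) 2 2 * dg (-1) 4 4 = 1 := by
    ext i j
    fin_cases i <;> fin_cases j <;> simp [dg, Matrix.mul_apply, Fin.sum_univ_three] <;>
      linear_combination h7
  constructor
  · intro k hk
    rw [pow6 _ p6 k] at hk ⊢
    have hk6 : k % 6 < 6 := Nat.mod_lt _ (by norm_num)
    generalize k % 6 = r at hk hk6
    interval_cases r
    · rfl
    · exfalso
      obtain ⟨e, he⟩ := oud p1 h.hd hDD hk
      have e1 := congrFun (congrFun he 0) 1
      have e0 := congrFun (congrFun he 0) 0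
      simp [Matrix.mul_apply, Fin.sum_univ_three] at e0 e1
      rcases e1 with e1 | e1
      · exact h3 (by rw [e0, e1, zero_mul])
      · exact h4 e1
    · exfalso
      obtain ⟨e, he⟩ := ind p2 h.hd hk
      have e1 := congrFun (congrFun he 0) 1
      have e0 := congrFun (congrFun he 0) 0
      simp [Matrix.mul_apply, Fin.sum_univ_three] at e0 e1
      exact h2 (by linear_combination 2 * h7 - (3 * e1 - 4 * e0))
    · exfalso
      obtain ⟨e, he⟩ := oud p3 h.hd hDD hk
      have e1 := congrFun (congrFun he 0) 1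
      have e0 := congrFun (congrFun he 0) 0
      simp [Matrix.mul_apply, Fin.sum_univ_three] at e0 e1
      rcases e1 with e1 | e1
      · exact h3 (by rw [e0, e1, zero_mul])
      · exact h4 e1
    · exfalso
      obtain ⟨e, he⟩ := ind p4 h.hd hk
      have e1 := congrFun (congrFun he 0) 1
      have e0 := congrFun (congrFun he 0) 0
      simp [Matrix.mul_apply, Fin.sum_univ_three] at e0 e1
      rcases e1 with e1 | e1
      · exact h2 (by linear_combination 3 * e1 - e0 - h7)
      · exact h4 e1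
    · exfalso
      obtain ⟨e, he⟩ := oud p5 h.hd hDD hk
      have e1 := congrFun (congrFun he 0) 1
      have e0 := congrFun (congrFun he 0) 0
      simp [Matrix.mul_apply, Fin.sum_univ_three] at e0 e1
      rcases e1 with e1 | e1
      · exact h3 (by rw [e0, e1, zero_mul])
      · exact h4 e1
  · intro k hk
    rw [pow6 _ p6 k] at hk ⊢
    have hk6 : k % 6 < 6 := Nat.mod_lt _ (by norm_num)
    generalize k % 6 = r at hk hk6
    interval_cases r
    · rfl
    · exfalso
      obtain ⟨e, he⟩ := ouo (A' := !![1, 0, 0; 0, 0, 2; 0, 4, 0]) p1 h.ha (by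
        ext i j
        fin_cases i <;> fin_cases j <;> simp [Matrix.mul_apply, Fin.sum_univ_three] <;>
          linear_combination h7) hAA hk
      have e1 := congrFun (congrFun he 2) 1
      have e0 := congrFun (congrFun he 0) 0
      simp [dg, Matrix.mul_apply, Fin.sum_univ_three] at e0 e1
      exact h2 (by linear_combination 2 * h7 - (e1 - 4 * e0))
    · exfalso
      have q1 := p2.mul_outer h.ha (A' := !![1, 0, 0; 0, 4, 0; 0, 0, 2]) (by
        ext i j
        fin_cases i <;> fin_cases j <;> simp [Matrix.mul_apply, Fin.sum_univ_three] <;>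
          linear_combination h7)
      have q2 := h.ha.mul_inner p2
      rw [hk] at q1
      obtain ⟨_, e, _, he⟩ := q1.uniq q2
      have e1 := congrFun (congrFun he 1) 1
      have e0 := congrFun (congrFun he 0) 0
      simp [dg, Matrix.mul_apply, Fin.sum_univ_three] at e0 e1
      exact h4 (by linear_combination 8 * e0 - e1)
    · exfalso
      obtain ⟨e, he⟩ := ouo (A' := !![1, 0, 0; 0, 0, 1; 0, 1, 0]) p3 h.ha (by
        ext i j
        fin_cases i <;> fin_cases j <;> simp [Matrix.mul_apply, Fin.sum_univ_three]) hAA hk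
      have e1 := congrFun (congrFun he 2) 1
      have e0 := congrFun (congrFun he 0) 0
      simp [dg, Matrix.mul_apply, Fin.sum_univ_three] at e0 e1
      exact h2 (by linear_combination e1 - 2 * e0)
    · exfalso
      have q1 := p4.mul_outer h.ha (A' := !![1, 0, 0; 0, 2, 0; 0, 0, 4]) (by
        ext i j
        fin_cases i <;> fin_cases j <;> simp [Matrix.mul_apply, Fin.sum_univ_three] <;>
          linear_combination h7)
      have q2 := h.ha.mul_inner p4
      rw [hk] at q1
      obtain ⟨_, e, _, he⟩ := q1.uniq q2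
      have e1 := congrFun (congrFun he 1) 1
      have e0 := congrFun (congrFun he 0) 0
      simp [dg, Matrix.mul_apply, Fin.sum_univ_three] at e0 e1
      exact h4 (by linear_combination e1 - 4 * e0)
    · exfalso
      obtain ⟨e, he⟩ := ouo (A' := !![1, 0, 0; 0, 0, 4; 0, 2, 0]) p5 h.ha (by
        ext i j
        fin_cases i <;> fin_cases j <;> simp [Matrix.mul_apply, Fin.sum_univ_three] <;>
          linear_combination h7) hAA hk
      have e1 := congrFun (congrFun he 1) 2
      have e0 := congrFun (congrFun he 0) 0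
      simp [dg, Matrix.mul_apply, Fin.sum_univ_three] at e0 e1
      exact h2 (by linear_combination 2 * h7 - (e1 - 4 * e0))

end Pool.Agent.H60.SCG2
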