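import Pool.Agent.H24.SCG2.Stmts4

/-!
# Row FEX: the parameter of the family for `q = 3 ^ e`, `e ≥ 3` odd
-/

namespace Pool.Agent.H60.SCG2

open Pool.SCG

theorem card_three {F : Type} [Field F] [Finite F] (h : OddT F) :
    Nat.card F % 4 = 3 ∧ 3 ≤ Nat.card F := by
  obtain ⟨h3, hsq⟩ := h
  have : Fintype F := Fintype.ofFinite F
  have : CharP F 3 := by
    have := CharP.exists F
    obtain ⟨p, hp⟩ := this
    have h1 : p ∣ 3 := (CharP.cast_eq_zero_iff F p 3).1 (by exact_mod_cast h3)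
    rcases (Nat.dvd_prime Nat.prime_three).1 h1 with h | h
    · subst h
      exact absurd rfl (CharP.char_ne_one F 1)
    · rw [← h]; exact hp
  obtain ⟨n, -, hn⟩ := FiniteField.card F 3
  rw [Nat.card_eq_fintype_card, hn] at hsq ⊢
  have hodd : Odd (n : ℕ) := by
    by_contra hne
    rw [Nat.not_odd_iff_even] at hne
    obtain ⟨k, hk⟩ := hne
    exact hsq ⟨3 ^ k, by rw [hk, pow_add]⟩
  obtain ⟨k, hk⟩ := hodd
  rw [hk, pow_succ, pow_mul]
  constructor
  · have : (3 ^ 2) ^ k % 4 = 1 := by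
      rw [Nat.pow_mod]; norm_num
    omega
  · have : 0 < (3 ^ 2) ^ k := by positivity
    omega

theorem fex_thm : FEXStmt := by
  intro F _ _ hF hc
  obtain ⟨h4, hge⟩ := card_three hF
  have : Fintype F := Fintype.ofFinite F
  have hm1 : ¬ IsSquare (-1 : F) := by
    rw [FiniteField.isSquare_neg_one_iff]
    rw [Nat.card_eq_fintype_card] at h4
    simp [h4]
  obtain ⟨g, hg⟩ := IsCyclic.exists_monoid_generator (α := Fˣ)
  have hgen : ∀ x : F, x ≠ 0 → ∃ k : ℕ, (g : F) ^ k = x := by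
    intro x hx
    obtain ⟨k, hk⟩ := hg (Units.mk0 x hx)
    refine ⟨k, ?_⟩
    have := congrArg (Units.val) hk
    simpa using this
  obtain ⟨k, hk⟩ := hgen (-1) (by simp)
  have hkodd : Odd k := by
    by_contra hne
    rw [Nat.not_odd_iff_even] at hne
    obtain ⟨j, hj⟩ := hne
    exact hm1 ⟨(g : F) ^ j, by rw [← hk, hj, pow_add]⟩
  obtain ⟨j, hj⟩ := hkodd
  have hs2 : -(((g : F) ^ (j + 1)) ^ 2) = g := by
    rw [← pow_mul]
    have : (j + 1) * 2 = k + 1 := by omega
    rw [this, pow_succ, hk]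
    ring
  obtain ⟨s, hs⟩ : ∃ s, s = (g : F) ^ (j + 1) := ⟨_, rfl⟩
  rw [← hs] at hs2
  -- not all elements are in `{0, 1, -1}`
  have hcard : ¬ ∀ x : F, x = 0 ∨ x = 1 ∨ x = -1 := by
    intro hall
    classical
    have h1 : (Finset.univ : Finset F) ⊆ {0, 1, -1} := by
      intro x _
      simpa using hall x
    have h2 := (Finset.card_le_card h1).trans Finset.card_le_three
    rw [Finset.card_univ, ← Nat.card_eq_fintype_card] at h2
    exact hc (le_antisymm h2 hge)
  have hg1 : (g : F) ≠ 1 := by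
    intro h
    refine hcard fun x => ?_
    by_cases hx : x = 0
    · exact Or.inl hx
    · obtain ⟨i, hi⟩ := hgen x hx
      rw [h, one_pow] at hi
      exact Or.inr (Or.inl hi.symm)
  have hg2 : (g : F) ≠ -1 := by
    intro h
    refine hcard fun x => ?_
    by_cases hx : x = 0
    · exact Or.inl hx
    · obtain ⟨i, hi⟩ := hgen x hx
      rw [h] at hi
      rcases neg_one_pow_eq_or F i with h' | h'
      · rw [h'] at hi; exact Or.inr (Or.inl hi.symm)
      · rw [h'] at hi; exact Or.inr (Or.inr hi.symm)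
  have hs0 : s ≠ 0 := by rw [hs]; exact pow_ne_zero _ g.ne_zero
  have e1 : s ^ 2 ≠ 1 := fun h => hg2 (by rw [← hs2, h])
  have e2 : s ^ 2 ≠ -1 := fun h => hg1 (by rw [← hs2, h, neg_neg])
  have e4 : s ^ 4 ≠ -1 := fun h => hm1 ⟨s ^ 2, by rw [← h]; ring⟩
  refine ⟨s, hs0, e1, e2, e4, fun x hx => by rw [hs2]; exact hgen x hx, s ^ 2, pow_ne_zero _ hs0,
    fun h => ?_, fun h => ?_⟩
  · have h1 : (s ^ 2 - 1) * (s ^ 2 + 1) = 0 := by linear_combination h
    rcases mul_eq_zero.1 h1 with h2 | h2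
    · exact e1 (sub_eq_zero.1 h2)
    · exact e2 (eq_neg_of_add_eq_zero_left h2)
  · have h1 : s ^ 2 - 1 ≠ 0 := sub_ne_zero.2 e1
    refine hm1 ⟨(s ^ 2 + 1) / (s ^ 2 - 1), ?_⟩
    field_simp
    linear_combination -h

end Pool.Agent.H60.SCG2
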